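import Mathlib
import Pool.Agent.Q139.ID.Stm
import Pool.Agent.Q139.ID.Bas
import Pool.Agent.Q139.ID.J01
import Pool.Agent.Q139.ID.J02
import Pool.Agent.Q139.ID.J03
import Pool.Agent.Q139.ID.J04
import Pool.Agent.Q139.ID.J05
import Pool.Agent.Q139.ID.J06
import Pool.Agent.Q139.ID.J07
import Pool.Agent.Q139.ID.J08
import Pool.Agent.Q139.ID.Comb
import Pool.Agent.Q139.ID.J10
import Pool.Agent.Q139.ID.J11
import Pool.Agent.Q139.ID.J12
import Pool.Agent.Q139.ID.J13
import Pool.Agent.Q139.ID.J14
import Pool.Agent.Q139.ID.J15

set_option autoImplicit false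

/-!
# Pseudo-idiomeric versus idiomeric tilings by two-component tiles: full answer

The prototile `T` is the union of two dihexes: the cells with centres `0`, `1`, `4ζ`, `4ζ + 1`
(`ζ = e^{iπ/3}`) of the regular hexagonal tiling with vertices at distance `1/√3` from the centres.
It has two components, both closed topological disks; it is the prototile of a pseudo-idiomeric
tiling, and it is not the prototile of any idiomeric tiling (the copies of `T` in a tiling may be
arbitrary congruent copies).
-/

namespace Pool.Agent.Results.MP_ad45c3_co.TwoDihexes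

open Pool.Agent.Q139.ID

/-- The prototile `T` (two dihexes) has exactly two components, it admits a pseudo-idiomeric
tiling of the plane, and it admits no idiomeric tiling. -/
theorem result : TwoComponents T ∧
    (∃ F : Set (Set ℂ), IsTiling F ∧ Monohedral F T ∧ PseudoIdiomeric F) ∧
    ¬ ∃ F : Set (Set ℂ), IsTiling F ∧ Monohedral F T ∧ Idiomeric F := by
  have hball := t_ball
  have hsym := t_sym hball
  have hpack := t_pack hball hsym
  have hcorner := t_corner hpack t_geo t_vert
  have hall := t_all hcorner
  have halign := t_align hpack hall t_cover t_vert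
  have hno := t_noidio hsym hpack hall halign t_comb t_comp
  have htil := t_tiling t_cover
  have htr := t_trans htil t_comp
  refine ⟨⟨D1, D2, t_disk.1, t_disk.2, t_comp.2.1, t_comp.1⟩, ⟨F1, htil.1, htil.2, ?_, htr⟩, hno⟩
  intro hiso
  exact hno ⟨F1, htil.1, htil.2, hiso, htr⟩

end Pool.Agent.Results.MP_ad45c3_co.TwoDihexes
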